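import Pool.Agent.U280.OL.Stm

/-!
# Project OL, package Q1: averages over `y`

Co-authors: helper280 (project), helper56.
-/

set_option autoImplicit false

open MeasureTheory FourierTransform Set Filter Topology
open scoped ENNReal

namespace Pool.Agent.U56.OL

open Pool.Agent.U280.OD Pool.Agent.U280.OE Pool.Agent.U280.OL

variable {k m : ℕ}

/-- the average without the weight -/
noncomputable def A (H : P k m → ℂ) (x : E k) : ℂ := ∫ y, H (x, y)

lemma A_cont (H : P k m → ℂ) (hH : Continuous H) (hc : HasCompactSupport H) :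
    Continuous (A H) := by
  have hK : IsCompact (Prod.snd '' tsupport H) := hc.isCompact.image continuous_snd
  have h1 := continuous_parametric_integral_of_continuous (μ := (volume : Measure (Fin m → ℝ)))
    (f := fun (x : E k) (y : Fin m → ℝ) => H (x, y)) (by exact hH) hK
  have h2 : A H = fun x => ∫ y in Prod.snd '' tsupport H, H (x, y) := by
    funext x
    unfold A
    rw [← integral_indicator hK.measurableSet]
    refine integral_congr_ae (Eventually.of_forall fun y => ?_)
    simp only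
    by_cases hy : y ∈ Prod.snd '' tsupport H
    · rw [indicator_of_mem hy]
    · rw [indicator_of_notMem hy]
      apply image_eq_zero_of_notMem_tsupport
      intro h
      exact hy ⟨(x, y), h, rfl⟩
  rw [h2]
  exact h1

lemma A_supp (H : P k m → ℂ) (hc : HasCompactSupport H) : HasCompactSupport (A H) := by
  have hK : IsCompact (Prod.fst '' tsupport H) := hc.isCompact.image continuous_fst
  refine HasCompactSupport.intro hK fun x hx => ?_
  unfold A
  have : ∀ y, H (x, y) = 0 := fun y => by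
    apply image_eq_zero_of_notMem_tsupport
    intro h
    exact hx ⟨(x, y), h, rfl⟩
  simp only [this, integral_zero]

lemma H_int (H : P k m → ℂ) (hH : Continuous H) (hc : HasCompactSupport H) :
    Integrable H ((volume : Measure (E k)).prod (volume : Measure (Fin m → ℝ))) :=
  hH.integrable_of_hasCompactSupport hc

/-- the Fourier integral with a parameter -/
noncomputable def ff (H : P k m → ℂ) (y : Fin m → ℝ) (ξ : E k) : ℂ :=
  ∫ x : E k, Real.fourierChar (-(inner ℝ x ξ)) • H (x, y)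

lemma ff_eq (H : P k m → ℂ) (y : Fin m → ℝ) (ξ : E k) : 𝓕 (sl H y) ξ = ff H y ξ := by
  rw [Real.fourier_eq]
  rfl

lemma ff_meas (H : P k m → ℂ) (hH : Continuous H) :
    StronglyMeasurable (fun p : E k × (Fin m → ℝ) => ff H p.2 p.1) := by
  have h1 : Continuous (fun q : (E k × (Fin m → ℝ)) × E k =>
      Real.fourierChar (-(inner ℝ q.2 q.1.1)) • H (q.2, q.1.2)) := by
    have ha : Continuous (fun q : (E k × (Fin m → ℝ)) × E k =>
        Real.fourierChar (-(inner ℝ q.2 q.1.1))) := by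
      have hb : Continuous (fun q : (E k × (Fin m → ℝ)) × E k => -(inner ℝ q.2 q.1.1 : ℝ)) := by
        fun_prop
      exact Real.continuous_fourierChar.comp hb
    have hc : Continuous (fun q : (E k × (Fin m → ℝ)) × E k => H (q.2, q.1.2)) :=
      hH.comp (by fun_prop)
    exact ha.smul hc
  exact h1.stronglyMeasurable.integral_prod_right'

lemma ff_le (H : P k m → ℂ) (y : Fin m → ℝ) (ξ : E k) : ‖ff H y ξ‖ ≤ ∫ x : E k, ‖H (x, y)‖ := by
  unfold ff
  refine (norm_integral_le_integral_norm _).trans (le_of_eq ?_)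
  refine integral_congr_ae (Eventually.of_forall fun x => ?_)
  simp only
  rw [Circle.norm_smul]

lemma four_A (H : P k m → ℂ) (hH : Continuous H) (hc : HasCompactSupport H) (ξ : E k) :
    𝓕 (A H) ξ = ∫ y, ff H y ξ := by
  rw [Real.fourier_eq]
  unfold A ff
  have h1 : ∀ x : E k, Real.fourierChar (-(inner ℝ x ξ)) • ∫ y, H (x, y) =
      ∫ y, Real.fourierChar (-(inner ℝ x ξ)) • H (x, y) := fun x => by
    simp_rw [Circle.smul_def]
    exact (integral_smul _ _).symm
  simp_rw [h1]
  refine integral_integral_swap (μ := (volume : Measure (E k)))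
    (ν := (volume : Measure (Fin m → ℝ)))
    (f := fun (x : E k) (y : Fin m → ℝ) => Real.fourierChar (-(inner ℝ x ξ)) • H (x, y)) ?_
  have hI := H_int H hH hc
  refine hI.mono ?_ (Eventually.of_forall fun z => ?_)
  · have ha : Continuous (fun z : E k × (Fin m → ℝ) => Real.fourierChar (-(inner ℝ z.1 ξ))) := by
      have hb : Continuous (fun z : E k × (Fin m → ℝ) => -(inner ℝ z.1 ξ : ℝ)) := by
        fun_prop
      exact Real.continuous_fourierChar.comp hb
    exact (ha.smul hH).aestronglyMeasurable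
  · simp only [Function.uncurry]
    rw [Circle.norm_smul]

lemma lam_nonneg (ξ : E k) : 0 ≤ lam ξ := by
  unfold lam; positivity

lemma continuous_lam : Continuous (lam : E k → ℝ) := by
  unfold lam; fun_prop

lemma continuous_nu (τ : ℝ) : Continuous (fun ξ : E k => nu τ (lam ξ)) := by
  have := continuous_lam (k := k)
  unfold nu
  fun_prop

lemma nu_nonneg (τ l : ℝ) (hl : 0 ≤ l) : 0 ≤ nu τ l := by
  have h : 0 ≤ 2 + 2 * (τ * l) + (τ * l) ^ 2 := by nlinarith [sq_nonneg (1 + τ * l)]
  unfold nu; positivity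

/-- a Gaussian is integrable -/
lemma gauss (b : ℝ) (hb : 0 < b) : Integrable (fun ξ : E k => Real.exp (-(b * lam ξ))) := by
  have h := GaussianFourier.integrable_cexp_neg_mul_sq_norm_add (V := E k)
    (b := ((b * (4 * Real.pi ^ 2) : ℝ) : ℂ)) (by rw [Complex.ofReal_re]; positivity) 0 0
  refine h.norm.congr (Eventually.of_forall fun ξ => ?_)
  simp only [Complex.norm_exp]
  congr 1
  have : (-((b * (4 * Real.pi ^ 2) : ℝ) : ℂ) * (‖ξ‖ : ℂ) ^ 2 + 0 * ((inner ℝ (0 : E k) ξ : ℝ) : ℂ)) =
      ((-(b * lam ξ) : ℝ) : ℂ) := by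
    unfold lam; push_cast; ring
  rw [this, Complex.ofReal_re]

/-- the symbol is bounded by a Gaussian -/
lemma symb_bound (ε τ : ℝ) (hε : 0 < ε) (hτ : 0 < τ) : ∃ C : ℝ, 0 ≤ C ∧ ∀ l : ℝ, 0 ≤ l →
    nu τ l * Real.exp (-(ε * l)) ≤ C * Real.exp (-(ε / 2 * l)) := by
  refine ⟨4 / Real.sqrt 33 * (2 / ε), by positivity, fun l hl => ?_⟩
  have h1 : l ≤ 2 / ε * Real.exp (ε * l / 2) := by
    have := Real.add_one_le_exp (ε * l / 2)
    have h2 : ε * l / 2 ≤ Real.exp (ε * l / 2) := by linarith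
    calc l = 2 / ε * (ε * l / 2) := by field_simp
      _ ≤ 2 / ε * Real.exp (ε * l / 2) := by gcongr
  have hy : 0 ≤ τ * l := by positivity
  have h2 : Real.exp (-(τ * l)) * (2 + 2 * (τ * l) + (τ * l) ^ 2) ≤ 2 := by
    have h3 := Real.quadratic_le_exp_of_nonneg hy
    have h4 : 2 + 2 * (τ * l) + (τ * l) ^ 2 ≤ 2 * Real.exp (τ * l) := by linarith
    calc Real.exp (-(τ * l)) * (2 + 2 * (τ * l) + (τ * l) ^ 2)
        ≤ Real.exp (-(τ * l)) * (2 * Real.exp (τ * l)) := by gcongr
      _ = 2 * (Real.exp (-(τ * l)) * Real.exp (τ * l)) := by ring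
      _ = 2 := by rw [← Real.exp_add, neg_add_cancel, Real.exp_zero, mul_one]
  unfold nu
  calc 2 / Real.sqrt 33 * l * Real.exp (-(τ * l)) * (2 + 2 * (τ * l) + (τ * l) ^ 2) *
        Real.exp (-(ε * l))
      = 2 / Real.sqrt 33 * l * (Real.exp (-(τ * l)) * (2 + 2 * (τ * l) + (τ * l) ^ 2)) *
        Real.exp (-(ε * l)) := by ring
    _ ≤ 2 / Real.sqrt 33 * (2 / ε * Real.exp (ε * l / 2)) * 2 * Real.exp (-(ε * l)) := by gcongr
    _ = 4 / Real.sqrt 33 * (2 / ε) * (Real.exp (ε * l / 2) * Real.exp (-(ε * l))) := by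
        ring
    _ = 4 / Real.sqrt 33 * (2 / ε) * Real.exp (-(ε / 2 * l)) := by
        rw [← Real.exp_add]; congr 2; ring

/-- the character times the symbol -/
noncomputable def w (ε τ : ℝ) (x ξ : E k) : ℂ :=
  ((Real.fourierChar (inner ℝ ξ x) : Circle) : ℂ) *
    ((nu τ (lam ξ) * Real.exp (-(ε * lam ξ)) : ℝ) : ℂ)

lemma w_cont (ε τ : ℝ) (x : E k) : Continuous (w ε τ x) := by
  have h1 := continuous_lam (k := k)
  have h2 := continuous_nu (k := k) τ
  have h3 : Continuous (fun ξ : E k => ((Real.fourierChar (inner ℝ ξ x) : Circle) : ℂ)) := by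
    have hb : Continuous (fun ξ : E k => (inner ℝ ξ x : ℝ)) := by fun_prop
    exact continuous_subtype_val.comp (Real.continuous_fourierChar.comp hb)
  unfold w
  fun_prop

lemma w_le (ε τ : ℝ) (hε : 0 < ε) (hτ : 0 < τ) (x : E k) :
    ∃ C : ℝ, 0 ≤ C ∧ ∀ ξ, ‖w ε τ x ξ‖ ≤ C * Real.exp (-(ε / 2 * lam ξ)) := by
  obtain ⟨C, hC, h⟩ := symb_bound ε τ hε hτ
  refine ⟨C, hC, fun ξ => ?_⟩
  have h0 : 0 ≤ nu τ (lam ξ) * Real.exp (-(ε * lam ξ)) :=
    mul_nonneg (nu_nonneg _ _ (lam_nonneg ξ)) (Real.exp_pos _).le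
  unfold w
  rw [norm_mul, Circle.norm_coe, one_mul, Complex.norm_real, Real.norm_of_nonneg h0]
  exact h _ (lam_nonneg ξ)

lemma cop_eq (ε τ : ℝ) (u : E k → ℂ) (x : E k) : cop ε τ u x = ∫ ξ, w ε τ x ξ * 𝓕 u ξ := by
  unfold cop w
  rw [Real.fourierInv_eq]
  refine integral_congr_ae (Eventually.of_forall fun ξ => ?_)
  simp only
  rw [Circle.smul_def, smul_eq_mul, mul_assoc]

lemma cop_A (H : P k m → ℂ) (hH : Continuous H) (hc : HasCompactSupport H) (ε τ : ℝ) (hε : 0 < ε)
    (hτ : 0 < τ) (x : E k) : cop ε τ (A H) x = ∫ y, cop ε τ (sl H y) x := by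
  rw [cop_eq]
  simp_rw [cop_eq, ff_eq, four_A H hH hc]
  have h1 : ∀ ξ : E k, w ε τ x ξ * ∫ y, ff H y ξ = ∫ y, w ε τ x ξ * ff H y ξ := fun ξ =>
    (integral_const_mul _ _).symm
  simp_rw [h1]
  refine integral_integral_swap (μ := (volume : Measure (E k)))
    (ν := (volume : Measure (Fin m → ℝ)))
    (f := fun (ξ : E k) (y : Fin m → ℝ) => w ε τ x ξ * ff H y ξ) ?_
  obtain ⟨C, hC, hw⟩ := w_le ε τ hε hτ x
  have hI := (H_int H hH hc).integral_norm_prod_right
  have hG := ((gauss (k := k) (ε / 2) (by positivity)).const_mul C)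
  refine (hG.mul_prod hI).mono' ?_ (Eventually.of_forall fun z => ?_)
  · exact (((w_cont ε τ x).comp continuous_fst).stronglyMeasurable.mul
      (ff_meas H hH)).aestronglyMeasurable
  · simp only [Function.uncurry]
    rw [norm_mul]
    exact mul_le_mul (hw _) (ff_le H _ _) (norm_nonneg _) (by positivity)

theorem t_Q1 : Q1 := by
  intro k m F hF hFc v hv hvc
  set H : P k m → ℂ := fun z => ((v z.2 : ℝ) : ℂ) * F z with hHdef
  have hH : Continuous H := by
    have : Continuous (fun z : P k m => ((v z.2 : ℝ) : ℂ)) :=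
      Complex.continuous_ofReal.comp (hv.comp continuous_snd)
    exact this.mul hF
  have hc : HasCompactSupport H := hFc.mul_left
  have hA : av v F = A H := rfl
  refine ⟨hA ▸ A_cont H hH hc, hA ▸ A_supp H hc, fun ε τ hε hτ x => ?_⟩
  rw [hA, cop_A H hH hc ε τ hε hτ x]
  refine integral_congr_ae (Eventually.of_forall fun y => ?_)
  simp only
  rw [cop_eq, cop_eq, ← integral_const_mul]
  refine integral_congr_ae (Eventually.of_forall fun ξ => ?_)
  simp only
  rw [ff_eq, ff_eq]
  have : ff H y ξ = ((v y : ℝ) : ℂ) * ff F y ξ := by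
    unfold ff
    rw [← integral_const_mul]
    refine integral_congr_ae (Eventually.of_forall fun x => ?_)
    simp only [hHdef]
    rw [Circle.smul_def, Circle.smul_def, smul_eq_mul, smul_eq_mul]
    ring
  rw [this]
  ring

end Pool.Agent.U56.OL
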